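import Mathlib

/-!
# Zeros of a polynomial in a box of integers
-/

set_option autoImplicit false

namespace Pool.Agent.Q261.OD

open Finset MvPolynomial

theorem roots_card {k : Type} [CommRing k] [IsDomain k] [DecidableEq k] (q : Polynomial k) (hq : q ≠ 0) {e : ℕ}
    (he : q.natDegree ≤ e) (T : Finset ℤ) {B : ℝ} (hB : 0 ≤ B)
    (hTB : ∀ r : k, ((T.filter fun t : ℤ => (t : k) = r).card : ℝ) ≤ B) :
    ((T.filter fun t : ℤ => q.eval (t : k) = 0).card : ℝ) ≤ e * B := by
  have h1 : (T.filter fun t : ℤ => q.eval (t : k) = 0).card =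
      ∑ r ∈ q.roots.toFinset, ((T.filter fun t : ℤ => q.eval (t : k) = 0).filter
        fun t : ℤ => (t : k) = r).card := by
    refine card_eq_sum_card_fiberwise fun t ht => ?_
    rw [mem_coe, mem_filter] at ht
    rw [mem_coe, Multiset.mem_toFinset, Polynomial.mem_roots hq]
    exact ht.2
  rw [h1]
  push_cast
  have h2 : ∀ r ∈ q.roots.toFinset, (((T.filter fun t : ℤ => q.eval (t : k) = 0).filter
        fun t : ℤ => (t : k) = r).card : ℝ) ≤ B := by
    intro r _
    refine le_trans ?_ (hTB r)
    gcongr
    exact filter_subset _ _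
  refine (sum_le_card_nsmul _ _ _ h2).trans ?_
  rw [nsmul_eq_mul]
  have h3 : q.roots.toFinset.card ≤ e :=
    (Multiset.toFinset_card_le _).trans ((Polynomial.card_roots' q).trans he)
  gcongr

theorem ek1_fin {k : Type} [CommRing k] [IsDomain k] [DecidableEq k] (A B : ℝ) (hB : 0 ≤ B) (N : ℕ) :
    ∀ (F : MvPolynomial (Fin N) k), F ≠ 0 → ∀ T : Fin N → Finset ℤ,
    (∀ i, ((T i).card : ℝ) ≤ A) →
    (∀ i (r : k), (((T i).filter fun t : ℤ => (t : k) = r).card : ℝ) ≤ B) →
    (((Fintype.piFinset T).filter fun c => eval (fun i => (c i : k)) F = 0).card : ℝ) ≤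
      F.totalDegree * B * A ^ (N - 1) := by
  induction N with
  | zero =>
    intro F hF T _ _
    have h1 : ((Fintype.piFinset T).filter fun c => eval (fun i => (c i : k)) F = 0) = ∅ := by
      rw [filter_eq_empty_iff]
      intro c _ hc
      apply hF
      rw [eq_C_of_isEmpty F] at hc ⊢
      rw [eval_C] at hc
      rw [hc, C_0]
    rw [h1]
    have h2 : F.totalDegree = 0 := by
      rw [eq_C_of_isEmpty F, totalDegree_C]
    rw [h2]
    simp
  | succ N ih =>
    intro F hF T hA hTB
    have hA0 : 0 ≤ A := le_trans (Nat.cast_nonneg _) (hA 0)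
    set f := finSuccEquiv k N F with hf
    have hf0 : f ≠ 0 := by
      rw [hf]
      intro h
      exact hF ((map_eq_zero_iff _ (finSuccEquiv k N).injective).1 h)
    set e := f.natDegree with he
    set g := f.leadingCoeff with hg
    have hg0 : g ≠ 0 := Polynomial.leadingCoeff_ne_zero.2 hf0
    have hdeg : g.totalDegree + e ≤ F.totalDegree :=
      totalDegree_coeff_finSuccEquiv_add_le F e (by
        change f.coeff e ≠ 0
        exact hg0)
    set T' : Fin N → Finset ℤ := fun i => T i.succ with hT'
    have hev : ∀ c : Fin (N + 1) → ℤ, eval (fun i => (c i : k)) F =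
        Polynomial.eval (c 0 : k) (Polynomial.map (eval fun i => (Fin.tail c i : k)) f) := by
      intro c
      rw [hf, ← eval_eq_eval_mv_eval']
      congr 2
      ext i
      refine Fin.cases ?_ (fun j => ?_) i
      · rfl
      · rfl
    set Z := (Fintype.piFinset T).filter fun c => eval (fun i => (c i : k)) F = 0 with hZ
    have h1 : Z.card = ∑ c' ∈ Fintype.piFinset T', (Z.filter fun c => Fin.tail c = c').card := by
      refine card_eq_sum_card_fiberwise fun c hc => ?_
      rw [mem_coe, hZ, mem_filter, Fintype.mem_piFinset] at hc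
      rw [mem_coe, Fintype.mem_piFinset]
      intro i
      exact hc.1 i.succ
    have h2 : ∀ c' : Fin N → ℤ, (Z.filter fun c => Fin.tail c = c').card ≤
        ((T 0).filter fun t : ℤ => Polynomial.eval (t : k)
          (Polynomial.map (eval fun i => (c' i : k)) f) = 0).card := by
      intro c'
      refine card_le_card_of_injOn (fun c => c 0) ?_ ?_
      · intro c hc
        rw [mem_coe, mem_filter, hZ, mem_filter, Fintype.mem_piFinset] at hc
        obtain ⟨⟨hc1, hc2⟩, hc3⟩ := hc
        rw [mem_coe, mem_filter]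
        refine ⟨hc1 0, ?_⟩
        rw [hev, hc3] at hc2
        exact hc2
      · intro c hc d hd hcd
        rw [mem_coe, mem_filter] at hc hd
        have hcd' : c 0 = d 0 := hcd
        rw [← Fin.cons_self_tail c, ← Fin.cons_self_tail d, hc.2, hd.2, hcd']
    set Bad := (Fintype.piFinset T').filter fun c' => eval (fun i => (c' i : k)) g = 0 with hBad
    have h3 : ∀ c' ∈ Fintype.piFinset T', ((Z.filter fun c => Fin.tail c = c').card : ℝ) ≤
        (if eval (fun i => (c' i : k)) g = 0 then A else 0) + e * B := by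
      intro c' _
      split_ifs with h
      · have h4 : ((Z.filter fun c => Fin.tail c = c').card : ℝ) ≤ A := by
          refine le_trans ?_ (hA 0)
          exact_mod_cast (h2 c').trans (card_filter_le _ _)
        have : 0 ≤ (e : ℝ) * B := by positivity
        linarith
      · rw [zero_add]
        refine le_trans (by exact_mod_cast h2 c') (roots_card _ ?_ ?_ (T 0) hB (hTB 0))
        · intro h5
          apply h
          have h6 := congrArg (fun p => Polynomial.coeff p e) h5
          simp only [Polynomial.coeff_map, Polynomial.coeff_zero] at h6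
          exact h6
        · exact Polynomial.natDegree_map_le
    have h4 : (Z.card : ℝ) ≤ Bad.card * A + (Fintype.piFinset T').card * (e * B) := by
      rw [h1]
      push_cast
      refine (sum_le_sum h3).trans ?_
      rw [sum_add_distrib, sum_const, nsmul_eq_mul, ← sum_filter, sum_const, nsmul_eq_mul]
    have h5 : (Bad.card : ℝ) ≤ g.totalDegree * B * A ^ (N - 1) :=
      ih g hg0 T' (fun i => hA i.succ) (fun i r => hTB i.succ r)
    have h6 : ((Fintype.piFinset T').card : ℝ) ≤ A ^ N := by
      rw [Fintype.card_piFinset]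
      push_cast
      refine (prod_le_prod (fun i _ => Nat.cast_nonneg _) (fun i _ => hA i.succ)).trans ?_
      rw [prod_const, card_univ, Fintype.card_fin]
    have h7 : (g.totalDegree : ℝ) * B * A ^ (N - 1) * A ≤ g.totalDegree * B * A ^ N := by
      rcases Nat.eq_zero_or_pos N with h0 | h0
      · subst h0
        have : g.totalDegree = 0 := by
          rw [eq_C_of_isEmpty g, totalDegree_C]
        rw [this]
        simp
      · obtain ⟨m, rfl⟩ : ∃ m, N = m + 1 := ⟨N - 1, by omega⟩
        rw [Nat.add_sub_cancel, pow_succ]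
        exact le_of_eq (by ring)
    have h8 : (g.totalDegree : ℝ) + e ≤ F.totalDegree := by exact_mod_cast hdeg
    calc (Z.card : ℝ) ≤ Bad.card * A + (Fintype.piFinset T').card * (e * B) := h4
      _ ≤ g.totalDegree * B * A ^ (N - 1) * A + A ^ N * (e * B) := by gcongr
      _ ≤ g.totalDegree * B * A ^ N + A ^ N * (e * B) := by linarith
      _ = (g.totalDegree + e) * B * A ^ N := by ring
      _ ≤ F.totalDegree * B * A ^ N := by gcongr
      _ = F.totalDegree * B * A ^ (N + 1 - 1) := by rw [Nat.add_sub_cancel]

theorem ek1 {k : Type} [CommRing k] [IsDomain k] {N : ℕ} (F : MvPolynomial (Fin N) k)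
    (hF : F ≠ 0) (T : Fin N → Set ℤ) (hT : ∀ i, (T i).Finite) (A B : ℝ)
    (hA : ∀ i, (Nat.card (T i) : ℝ) ≤ A) (hB : 0 ≤ B)
    (hTB : ∀ i (r : k), (Nat.card {t : ℤ // t ∈ T i ∧ (t : k) = r} : ℝ) ≤ B) :
    (Nat.card {c : Fin N → ℤ // (∀ i, c i ∈ T i) ∧ eval (fun i => (c i : k)) F = 0} : ℝ) ≤
      F.totalDegree * B * A ^ (N - 1) := by
  classical
  have h := ek1_fin A B hB N F hF (fun i => (hT i).toFinset) ?_ ?_
  · refine le_trans (le_of_eq ?_) h
    congr 1
    refine Nat.subtype_card _ fun c => ?_
    simp
  · intro i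
    refine le_trans (le_of_eq ?_) (hA i)
    rw [Nat.card_eq_card_finite_toFinset (hT i)]
  · intro i r
    refine le_trans (le_of_eq ?_) (hTB i r)
    congr 1
    symm
    refine Nat.subtype_card _ fun t => ?_
    simp

end Pool.Agent.Q261.OD
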