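import Mathlib

/-!
# Elimination of one variable
-/

set_option autoImplicit false

namespace Pool.Agent.Q261.OD

open MvPolynomial

theorem fse_rename {R : Type} [CommRing R] {N : ℕ} (r : MvPolynomial (Fin N) R) :
    finSuccEquiv R N (rename Fin.succ r) = Polynomial.C r := by
  induction r using MvPolynomial.induction_on with
  | C a => rw [rename_C, finSuccEquiv_apply, eval₂Hom_C]; rfl
  | add p q hp hq => rw [map_add, map_add, hp, hq, Polynomial.C_add]
  | mul_X p i hp => rw [map_mul, map_mul, hp, rename_X, finSuccEquiv_X_succ, Polynomial.C_mul]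

/-- divisors of positive degree descend to the coefficient ring -/
theorem gauss {Z L : Type} [CommRing Z] [IsDomain Z] [UniqueFactorizationMonoid Z] [Field L]
    [Algebra Z L] [IsFractionRing Z L] (g : Polynomial L) (hg : g ≠ 0) :
    ∃ g₀ : Polynomial Z, g₀.natDegree = g.natDegree ∧
      ∀ q : Polynomial Z, g ∣ q.map (algebraMap Z L) → g₀ ∣ q := by
  have : NormalizedGCDMonoid Z := Classical.arbitrary (NormalizedGCDMonoid Z)
  obtain ⟨b, hb, hb2⟩ := IsLocalization.integerNormalization_spec (nonZeroDivisors Z) g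
  set g' := IsLocalization.integerNormalization (nonZeroDivisors Z) g with hg'
  have hg'0 : g' ≠ 0 := by
    rw [hg', Ne, IsFractionRing.integerNormalization_eq_zero_iff]
    exact hg
  have hb0 : (algebraMap Z L b) ≠ 0 := by
    rw [Ne, IsFractionRing.to_map_eq_zero_iff]
    exact nonZeroDivisors.ne_zero hb
  have h1 : g'.map (algebraMap Z L) = Polynomial.C (algebraMap Z L b) * g := by
    rw [← Polynomial.smul_eq_C_mul, algebraMap_smul]
    exact hb2
  have hc0 : algebraMap Z L g'.content ≠ 0 := by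
    rw [Ne, IsFractionRing.to_map_eq_zero_iff, Polynomial.content_eq_zero_iff]
    exact hg'0
  have h2 : g'.map (algebraMap Z L) = Polynomial.C (algebraMap Z L g'.content) *
      g'.primPart.map (algebraMap Z L) := by
    conv_lhs => rw [g'.eq_C_content_mul_primPart]
    rw [Polynomial.map_mul, Polynomial.map_C]
  refine ⟨g'.primPart, ?_, fun q hq => ?_⟩
  · have h3 := congrArg Polynomial.natDegree (h2.symm.trans h1)
    rw [Polynomial.natDegree_C_mul hc0, Polynomial.natDegree_C_mul hb0,
      Polynomial.natDegree_map_eq_of_injective (IsFractionRing.injective Z L)] at h3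
    exact h3
  · refine g'.isPrimitive_primPart.dvd_of_fraction_map_dvd_fraction_map (K := L) ?_
    refine dvd_trans ?_ hq
    refine ⟨Polynomial.C ((algebraMap Z L b)⁻¹ * algebraMap Z L g'.content), ?_⟩
    have h3 := h2.symm.trans h1
    rw [Polynomial.C_mul, mul_comm, mul_assoc, h3, ← mul_assoc, ← Polynomial.C_mul,
      inv_mul_cancel₀ hb0, Polynomial.C_1, one_mul]

theorem ek2 {N : ℕ} (S : Finset (MvPolynomial (Fin (N + 1)) ℤ))
    (hS : ∀ P : MvPolynomial (Fin (N + 1)) ℚ, (∀ G ∈ S, P ∣ map (Int.castRingHom ℚ) G) →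
      IsUnit P) :
    ∃ R : MvPolynomial (Fin N) ℤ, R ≠ 0 ∧
      rename Fin.succ R ∈ Ideal.span (S : Set (MvPolynomial (Fin (N + 1)) ℤ)) := by
  set Z := MvPolynomial (Fin N) ℤ
  set L := FractionRing Z
  set φ := finSuccEquiv ℤ N
  set ψ := Polynomial.mapRingHom (algebraMap Z L) with hψ
  set I := Ideal.span (S : Set (MvPolynomial (Fin (N + 1)) ℤ)) with hI
  set I' := Ideal.map φ.toRingEquiv I with hI'
  set J := Ideal.map ψ I' with hJ
  have hmem : ∀ G ∈ S, ψ (φ G) ∈ J := fun G hG =>
    Ideal.mem_map_of_mem ψ (Ideal.mem_map_of_mem φ.toRingEquiv (Ideal.subset_span hG))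
  have hinj : Function.Injective ψ := by
    rw [hψ, Polynomial.coe_mapRingHom]
    exact Polynomial.map_injective _ (IsFractionRing.injective Z L)
  obtain ⟨g, hg⟩ := (IsPrincipalIdealRing.principal J).principal
  have hdvd : ∀ G ∈ S, g ∣ ψ (φ G) := by
    intro G hG
    have := hmem G hG
    rw [hg] at this
    exact Ideal.mem_span_singleton.1 this
  have hg0 : g ≠ 0 := by
    intro h0
    have h1 : IsUnit (0 : MvPolynomial (Fin (N + 1)) ℚ) := by
      refine hS 0 fun G hG => ?_
      have h2 := hdvd G hG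
      rw [h0, zero_dvd_iff, map_eq_zero_iff _ hinj, map_eq_zero_iff _ φ.injective] at h2
      rw [h2, map_zero]
    exact not_isUnit_zero h1
  have hunit : IsUnit g := by
    obtain ⟨g₀, hdeg, hg₀⟩ := gauss (Z := Z) g hg0
    have h1 : ∀ G ∈ S, φ.symm g₀ ∣ G := by
      intro G hG
      have h2 := map_dvd φ.symm (hg₀ _ (hdvd G hG))
      rwa [φ.symm_apply_apply] at h2
    have h2 : IsUnit (map (Int.castRingHom ℚ) (φ.symm g₀)) :=
      hS _ fun G hG => map_dvd _ (h1 G hG)
    rw [isUnit_iff_eq_C_of_isReduced] at h2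
    obtain ⟨r, _, hr⟩ := h2
    have h3 : degreeOf 0 (φ.symm g₀) = 0 := by
      have h4 : degreeOf 0 (map (Int.castRingHom ℚ) (φ.symm g₀)) = degreeOf 0 (φ.symm g₀) := by
        rw [degreeOf_eq_sup, degreeOf_eq_sup, support_map_of_injective _
          (by exact Int.cast_injective)]
      rw [← h4, hr, degreeOf_C]
    rw [← natDegree_finSuccEquiv] at h3
    change (φ (φ.symm g₀)).natDegree = 0 at h3
    rw [φ.apply_symm_apply, hdeg] at h3
    rw [Polynomial.isUnit_iff_degree_eq_zero, Polynomial.degree_eq_natDegree hg0, h3]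
    rfl
  have h1 : (1 : Polynomial L) ∈ J := by
    rw [hg]
    exact Ideal.mem_span_singleton.2 hunit.dvd
  letI : Algebra (Polynomial Z) (Polynomial L) := ψ.toAlgebra
  haveI : IsLocalization (Submonoid.map Polynomial.C (nonZeroDivisors Z)) (Polynomial L) :=
    Polynomial.isLocalization (nonZeroDivisors Z) L
  have h2 : (1 : Polynomial L) ∈ Ideal.map (algebraMap (Polynomial Z) (Polynomial L)) I' := h1
  rw [IsLocalization.mem_map_algebraMap_iff (Submonoid.map Polynomial.C (nonZeroDivisors Z))] at h2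
  obtain ⟨⟨x, ⟨y, hy⟩⟩, hxy⟩ := h2
  rw [one_mul] at hxy
  have h3 : y = (x : Polynomial Z) := hinj hxy
  obtain ⟨r, hr, hry⟩ := hy
  have h4 : Polynomial.C r ∈ I' := by
    have : Polynomial.C r = (x : Polynomial Z) := hry.trans h3
    rw [this]
    exact x.2
  refine ⟨r, nonZeroDivisors.ne_zero hr, ?_⟩
  rw [hI', Ideal.mem_map_of_equiv] at h4
  obtain ⟨z, hz, hz2⟩ := h4
  have h5 : rename Fin.succ r = z := by
    apply φ.injective
    rw [fse_rename]
    exact hz2.symm
  rw [h5]
  exact hz

end Pool.Agent.Q261.OD
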