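import Mathlib

/-!
# The polynomials vanishing at a point of small transcendence degree
-/

set_option autoImplicit false

namespace Pool.Agent.Q261.OD

open MvPolynomial

theorem degreeOf_rename_val {ι : Type} [DecidableEq ι] {K : Type} [Field K] (i : ι)
    (g : MvPolynomial {j : ι // j ≠ i} K) :
    degreeOf i (rename (Subtype.val : {j : ι // j ≠ i} → ι) g) = 0 := by
  have h2 : i ∉ (rename (Subtype.val : {j : ι // j ≠ i} → ι) g).vars := by
    intro h
    obtain ⟨k, _, hk⟩ := mem_vars_rename _ _ h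
    exact k.2 hk
  by_contra h3
  apply h2
  rw [mem_vars_iff_mem_support]
  by_contra h5
  push Not at h5
  have h6 : degreeOf i (rename (Subtype.val : {j : ι // j ≠ i} → ι) g) ≤ 0 := by
    rw [degreeOf_le_iff]
    intro m hm
    have := h5 m hm
    rw [Finsupp.notMem_support_iff] at this
    omega
  omega

theorem isUnit_of_degreeOf {ι : Type} [DecidableEq ι] {K : Type} [Field K] (P : MvPolynomial ι K)
    (hP : P ≠ 0) (h : ∀ i, degreeOf i P = 0) : IsUnit P := by
  have h1 : P.vars = ∅ := by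
    rw [Finset.eq_empty_iff_forall_notMem]
    intro i hi
    rw [mem_vars_iff_mem_support] at hi
    obtain ⟨m, hm, hmi⟩ := hi
    have h2 : degreeOf i P ≤ 0 := (h i).le
    rw [degreeOf_le_iff] at h2
    have := h2 m hm
    rw [Finsupp.mem_support_iff] at hmi
    omega
  rw [vars_eq_empty_iff_eq_C] at h1
  rw [h1]
  refine IsUnit.map _ (isUnit_iff_ne_zero.2 ?_)
  intro h3
  apply hP
  rw [h1, h3, C_0]

theorem ek4 {ι Λ : Type} [Fintype ι] [Nonempty ι] [DecidableEq ι] [Field Λ] [Algebra ℚ Λ]
    (c : ι → Λ) (hc : ∀ i, ¬ AlgebraicIndependent ℚ (fun j : {j : ι // j ≠ i} => c j))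
    (P : MvPolynomial ι ℚ) (hP : ∀ G : MvPolynomial ι ℚ, aeval c G = 0 → P ∣ G) :
    IsUnit P := by
  have key : ∀ i, P ≠ 0 ∧ degreeOf i P = 0 := by
    intro i
    have h1 := hc i
    rw [algebraicIndependent_iff] at h1
    push Not at h1
    obtain ⟨g, hg, hg0⟩ := h1
    have h2 : P ∣ rename (Subtype.val : {j : ι // j ≠ i} → ι) g := by
      apply hP
      rw [aeval_rename]
      exact hg
    obtain ⟨H, hH⟩ := h2
    have h3 : rename (Subtype.val : {j : ι // j ≠ i} → ι) g ≠ 0 := fun h =>
      hg0 (rename_injective _ Subtype.val_injective (by rw [h, map_zero]))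
    rw [hH] at h3
    have hP0 := left_ne_zero_of_mul h3
    have h4 := degreeOf_rename_val i g
    rw [hH, degreeOf_mul_eq hP0 (right_ne_zero_of_mul h3)] at h4
    exact ⟨hP0, by omega⟩
  obtain ⟨i0⟩ := (inferInstance : Nonempty ι)
  exact isUnit_of_degreeOf P (key i0).1 fun i => (key i).2

end Pool.Agent.Q261.OD
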