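import Pool.Agent.Q40.OD.Stm2
import Pool.Agent.Q261.OD.EK1a
import Pool.Agent.Q261.OD.EK2a
import Pool.Agent.Q261.OD.EK4a

/-!
# Project OD: the lemmas OD-21, OD-22, OD-24
-/

set_option autoImplicit false

namespace Pool.Agent.Q261.OD

open Pool.Agent.Q40.OD

theorem s_ek1 : S_EK1 := by
  intro k _ _ N F hF T hT A B hA hB hTB
  exact ek1 F hF T hT A B hA hB hTB

theorem s_ek2 : S_EK2 := by
  intro N S hS
  exact ek2 S fun P hP => hS P fun G hG => hP G hG

theorem s_ek4 : S_EK4 := by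
  intro ι Λ _ _ _ _ _ c hc P hP
  exact ek4 c hc P hP

end Pool.Agent.Q261.OD
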