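import Pool.Agent.Q261.OD.EK3a

/-!
# The uniform Ekedahl sieve: the induction step
-/

set_option autoImplicit false

namespace Pool.Agent.Q261.OD

open Finset MvPolynomial

/-- the box -/
noncomputable def Bx {N : ℕ} (H Q : ℕ) (b : Fin N → ℤ) : Finset (Fin N → ℤ) :=
  Fintype.piFinset fun i => TT H Q (b i)

theorem card_Bx {N : ℕ} (H Q : ℕ) (hQ : 0 < Q) (b : Fin N → ℤ) :
    ((Bx H Q b).card : ℝ) ≤ (2 * H / Q + 1) ^ N := by
  unfold Bx
  rw [Fintype.card_piFinset]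
  push_cast
  refine (prod_le_prod (fun i _ => Nat.cast_nonneg _) (fun i _ => card_TT H Q hQ (b i))).trans ?_
  rw [prod_const, card_univ, Fintype.card_fin]

theorem tail_Bx {N : ℕ} {H Q : ℕ} {b : Fin (N + 1) → ℤ} {c : Fin (N + 1) → ℤ}
    (h : c ∈ Bx H Q b) : Fin.tail c ∈ Bx H Q (Fin.tail b) ∧ c 0 ∈ TT H Q (b 0) := by
  unfold Bx at h ⊢
  rw [Fintype.mem_piFinset] at h ⊢
  exact ⟨fun i => h i.succ, h 0⟩

open Classical in
/-- the exceptional set -/
noncomputable def ZZ {N : ℕ} (S : Finset (MvPolynomial (Fin N) ℤ)) (M Q H : ℕ) (b : Fin N → ℤ) :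
    Finset (Fin N → ℤ) :=
  (Bx H Q b).filter fun c => ∃ p : ℕ, p.Prime ∧ M < p ∧ ¬ p ∣ Q ∧ ∀ G ∈ S, (p : ℤ) ∣ eval c G

/-- some coefficient does not vanish modulo `p` -/
def Gd {N : ℕ} (S : Finset (MvPolynomial (Fin (N + 1)) ℤ)) (p : ℕ) (c' : Fin N → ℤ) : Prop :=
  ∃ G ∈ S, ∃ j, ¬ (p : ℤ) ∣ eval c' ((finSuccEquiv ℤ N G).coeff j)

theorem deg_zero {k : Type} [CommRing k] {N : ℕ} (h : N = 0) (R : MvPolynomial (Fin N) k) :
    R.totalDegree = 0 := by
  subst h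
  rw [eq_C_of_isEmpty R, totalDegree_C]

theorem pow_step {k : Type} [CommRing k] {N : ℕ} (R : MvPolynomial (Fin N) k) (A : ℝ) (j : ℕ) :
    (R.totalDegree : ℝ) * (A ^ (N - 1) * A ^ (j + 1)) = R.totalDegree * A ^ (N + j) := by
  rcases Nat.eq_zero_or_pos N with h | h
  · rw [deg_zero h R]
    simp
  · rw [← pow_add]
    congr 2
    omega

/-- prime divisors larger than `A` -/
theorem card_large (n : ℕ) (hn : n ≠ 0) (A : ℝ) (hA : 1 < A) (D : ℕ) (h : (n : ℝ) ≤ A ^ D)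
    (F : Finset ℕ) (hF : F ⊆ n.primeFactors) (hFA : ∀ p ∈ F, A ≤ p) : F.card ≤ D := by
  by_contra hc
  push Not at hc
  have h1 : A ^ F.card ≤ ∏ p ∈ F, (p : ℝ) := by
    rw [← prod_const]
    exact prod_le_prod (fun _ _ => by linarith) hFA
  have h2 : ∏ p ∈ F, p ≤ n := by
    refine le_trans ?_ (Nat.le_of_dvd (Nat.pos_of_ne_zero hn) (Nat.prod_primeFactors_dvd n))
    exact prod_le_prod_of_subset_of_one_le' hF fun p hp _ => (Nat.prime_of_mem_primeFactors hp).one_le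
  have h3 : A ^ F.card ≤ A ^ D := by
    refine h1.trans (le_trans ?_ h)
    rw [← Nat.cast_prod]
    exact Nat.cast_le.2 h2
  have h4 := pow_lt_pow_right₀ hA hc
  linarith

theorem inv_le {H Q p : ℕ} (hQ : 0 < Q) (hp : 0 < p) {A : ℝ} (hA : A = 2 * H / Q + 1)
    (hpA : (p : ℝ) ≤ A) : (2 * H / (p * Q) + 1 : ℝ) ≤ 2 * A / p := by
  have h1 : (0 : ℝ) < p := by exact_mod_cast hp
  have h2 : (0 : ℝ) < Q := by exact_mod_cast hQ
  rw [le_div_iff₀ h1]
  have h3 : (2 * H / (p * Q) + 1 : ℝ) * p = 2 * H / Q + p := by field_simp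
  rw [h3]
  linarith

theorem inv_le2 {H Q p : ℕ} (hQ : 0 < Q) (hp : 0 < p) {A : ℝ} (hA : A = 2 * H / Q + 1)
    (hpA : A ≤ (p : ℝ)) : (2 * H / (p * Q) + 1 : ℝ) ≤ 2 := by
  have h1 : (0 : ℝ) < p := by exact_mod_cast hp
  have h2 : (0 : ℝ) < Q := by exact_mod_cast hQ
  rw [← mul_le_mul_iff_left₀ h1]
  have h3 : (2 * H / (p * Q) + 1 : ℝ) * p = 2 * H / Q + p := by field_simp
  rw [h3]
  linarith

theorem sum_inv (M n : ℕ) (hM : 0 < M) (P : Finset ℕ) (hP : P ⊆ Ioc M n) :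
    ∑ p ∈ P, ((p : ℝ) ^ 2)⁻¹ ≤ (M : ℝ)⁻¹ := by
  have h1 : ∑ p ∈ P, ((p : ℝ) ^ 2)⁻¹ ≤ ∑ p ∈ Ioc M n, ((p : ℝ) ^ 2)⁻¹ :=
    sum_le_sum_of_subset_of_nonneg hP fun _ _ _ => by positivity
  refine h1.trans ?_
  rcases le_or_gt M n with h | h
  · refine (sum_Ioc_inv_sq_le_sub hM.ne' h).trans ?_
    have : (0 : ℝ) ≤ (n : ℝ)⁻¹ := by positivity
    linarith
  · rw [Ioc_eq_empty (by omega), sum_empty]
    positivity

open Classical in
theorem step {N : ℕ} (S : Finset (MvPolynomial (Fin (N + 1)) ℤ))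
    (S' : Finset (MvPolynomial (Fin N) ℤ)) (e : ℕ)
    (he : ∀ G ∈ S, (finSuccEquiv ℤ N G).natDegree ≤ e)
    (hS' : ∀ g ∈ S', ∃ G ∈ S, ∃ j, g = (finSuccEquiv ℤ N G).coeff j)
    (R : MvPolynomial (Fin N) ℤ)
    (hR : rename Fin.succ R ∈ Ideal.span (S : Set (MvPolynomial (Fin (N + 1)) ℤ)))
    (hR0 : R ≠ 0) (K : ℕ)
    (hK1 : ∀ p : ℕ, p.Prime → K < p → map (Int.castRingHom (ZMod p)) R ≠ 0)
    (hK2 : ∀ (H : ℕ) (c' : Fin N → ℤ), (∀ i, |c' i| ≤ H) →
      |eval c' R| ≤ K * ((H : ℤ) + 1) ^ R.totalDegree)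
    (M Q H : ℕ) (hM : 0 < M) (hKM : K ≤ M) (hQ : 0 < Q) (A : ℝ) (hA : A = 2 * H / Q + 1)
    (hAK : (K : ℝ) ≤ A) (hAH : (H : ℝ) + 1 ≤ A ^ 2) (hA1 : 1 < A) (b : Fin (N + 1) → ℤ) :
    ((ZZ S M Q H b).card : ℝ) ≤ (ZZ S' M Q H (Fin.tail b)).card * A +
      R.totalDegree * A ^ N + 4 * R.totalDegree * e / M * A ^ (N + 1) +
      2 * e * (2 * R.totalDegree + 1) * A ^ N := by
  set D := R.totalDegree with hD
  have hA0 : 0 ≤ A := by linarith
  set B' := Bx H Q (Fin.tail b) with hB'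
  -- the four parts
  set Ya := (ZZ S M Q H b).filter fun c => (Fin.tail c : Fin N → ℤ) ∈ ZZ S' M Q H (Fin.tail b) with hYa
  set Y1 := (Bx H Q b).filter fun c => eval (Fin.tail c) R = 0 with hY1
  set P := (Ioc M ⌊A⌋₊).filter fun p => p.Prime ∧ ¬ p ∣ Q with hP
  set Y2 : ℕ → Finset (Fin (N + 1) → ℤ) := fun p => (Bx H Q b).filter fun c =>
    Gd S p (Fin.tail c) ∧ ∀ G ∈ S, (p : ℤ) ∣ eval c G with hY2
  set Y3 := (Bx H Q b).filter fun c => eval (Fin.tail c) R ≠ 0 ∧ ∃ p : ℕ, p.Prime ∧ A ≤ p ∧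
    ¬ p ∣ Q ∧ Gd S p (Fin.tail c) ∧ ∀ G ∈ S, (p : ℤ) ∣ eval c G with hY3
  have hsub : ZZ S M Q H b ⊆ Ya ∪ (Y1 ∪ (P.biUnion Y2 ∪ Y3)) := by
    intro c hc
    have hc' := hc
    unfold ZZ at hc'
    rw [mem_filter] at hc'
    obtain ⟨hcB, p, hp, hMp, hpQ, hG⟩ := hc'
    by_cases hg : Gd S p (Fin.tail c)
    · rw [mem_union, mem_union, mem_union]
      by_cases h0 : eval (Fin.tail c) R = 0
      · right; left
        rw [hY1, mem_filter]
        exact ⟨hcB, h0⟩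
      · rcases le_or_gt A p with h1 | h1
        · right; right; right
          rw [hY3, mem_filter]
          exact ⟨hcB, h0, p, hp, h1, hpQ, hg, hG⟩
        · right; right; left
          rw [mem_biUnion]
          refine ⟨p, ?_, ?_⟩
          · rw [hP, mem_filter, mem_Ioc]
            exact ⟨⟨hMp, Nat.le_floor h1.le⟩, hp, hpQ⟩
          · rw [hY2, mem_filter]
            exact ⟨hcB, hg, hG⟩
    · rw [mem_union]
      left
      rw [hYa, mem_filter]
      refine ⟨hc, ?_⟩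
      unfold ZZ
      rw [mem_filter]
      refine ⟨(tail_Bx hcB).1, p, hp, hMp, hpQ, fun g hgS => ?_⟩
      obtain ⟨G, hGS, j, rfl⟩ := hS' g hgS
      by_contra hcon
      exact hg ⟨G, hGS, j, hcon⟩
  have hYa' : (Ya.card : ℝ) ≤ (ZZ S' M Q H (Fin.tail b)).card * A := by
    refine fib Ya _ (fun _ => TT H Q (b 0)) A (fun c hc => ?_) (fun c' _ => ?_)
    · rw [hYa, mem_filter] at hc
      refine ⟨hc.2, ?_⟩
      have := hc.1
      unfold ZZ at this
      exact (tail_Bx (mem_filter.1 this).1).2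
    · rw [hA]
      exact card_TT H Q hQ (b 0)
  have hY1' : (Y1.card : ℝ) ≤ D * A ^ N := by
    have h1 : (Y1.card : ℝ) ≤ (B'.filter fun c' => eval c' R = 0).card * A := by
      refine fib Y1 _ (fun _ => TT H Q (b 0)) A (fun c hc => ?_) (fun c' _ => ?_)
      · rw [hY1, mem_filter] at hc
        refine ⟨?_, (tail_Bx hc.1).2⟩
        rw [mem_filter]
        exact ⟨(tail_Bx hc.1).1, hc.2⟩
      · rw [hA]
        exact card_TT H Q hQ (b 0)
    have h2 := ek1_fin A 1 zero_le_one N R hR0 (fun i => TT H Q (Fin.tail b i))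
      (fun i => by rw [hA]; exact card_TT H Q hQ _) (fun i r => by
        have : ((TT H Q (Fin.tail b i)).filter fun t : ℤ => (t : ℤ) = r).card ≤ 1 := by
          rw [card_le_one]
          intro x hx y hy
          rw [(mem_filter.1 hx).2.symm.trans rfl] at *
          exact ((mem_filter.1 hx).2).trans ((mem_filter.1 hy).2).symm
        exact_mod_cast this)
    have h3 : ((B'.filter fun c' => eval c' R = 0).card : ℝ) ≤ D * 1 * A ^ (N - 1) := by
      refine le_trans (le_of_eq ?_) h2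
      rfl
    calc (Y1.card : ℝ) ≤ (B'.filter fun c' => eval c' R = 0).card * A := h1
      _ ≤ D * 1 * A ^ (N - 1) * A := by gcongr
      _ = D * (A ^ (N - 1) * A ^ (0 + 1)) := by ring
      _ = D * A ^ (N + 0) := pow_step R A 0
  have hY2' : ∀ p ∈ P, ((Y2 p).card : ℝ) ≤ 4 * D * e * A ^ (N + 1) * ((p : ℝ) ^ 2)⁻¹ := by
    intro p hp
    rw [hP, mem_filter, mem_Ioc] at hp
    obtain ⟨⟨hMp, hpA⟩, hp, hpQ⟩ := hp
    have hpA' : (p : ℝ) ≤ A := (Nat.le_floor_iff hA0).1 hpA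
    have hp0 : (0 : ℝ) < p := by exact_mod_cast hp.pos
    have hb := inv_le hQ hp.pos hA hpA'
    have h1 : ((Y2 p).card : ℝ) ≤ (B'.filter fun c' => (p : ℤ) ∣ eval c' R ∧ Gd S p c').card *
        (e * (2 * A / p)) := by
      refine fib (Y2 p) _ (fun c' => (TT H Q (b 0)).filter fun x => ∀ G ∈ S,
        (p : ℤ) ∣ eval (Fin.cons x c' : Fin (N + 1) → ℤ) G) _ (fun c hc => ?_) (fun c' hc' => ?_)
      · rw [hY2, mem_filter] at hc
        refine ⟨?_, ?_⟩
        · rw [mem_filter]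
          exact ⟨(tail_Bx hc.1).1, dvd_of_span hR hc.2.2, hc.2.1⟩
        · rw [mem_filter, Fin.cons_self_tail]
          exact ⟨(tail_Bx hc.1).2, hc.2.2⟩
      · rw [mem_filter] at hc'
        obtain ⟨G, hG, j, hj⟩ := hc'.2.2
        refine (card_X S e he H Q p hQ hp hpQ (b 0) c' hG hj).trans ?_
        gcongr
    have h2 := card_R R H Q p hQ hp hpQ (hK1 p hp (by omega)) (Fin.tail b)
    have h3 : ((B'.filter fun c' => (p : ℤ) ∣ eval c' R ∧ Gd S p c').card : ℝ) ≤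
        D * (2 * A / p) * A ^ (N - 1) := by
      refine le_trans ?_ (h2.trans ?_)
      · have : (B'.filter fun c' => (p : ℤ) ∣ eval c' R ∧ Gd S p c') ⊆
            (Fintype.piFinset fun i => TT H Q (Fin.tail b i)).filter
              fun c' => (p : ℤ) ∣ eval c' R := by
          intro c' hc'
          rw [mem_filter] at hc' ⊢
          exact ⟨hc'.1, hc'.2.1⟩
        exact_mod_cast card_le_card this
      · rw [← hA]
        gcongr
    calc ((Y2 p).card : ℝ) ≤ _ := h1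
      _ ≤ D * (2 * A / p) * A ^ (N - 1) * (e * (2 * A / p)) := by gcongr
      _ = 4 * e * (D * (A ^ (N - 1) * A ^ (1 + 1))) * ((p : ℝ) ^ 2)⁻¹ := by
        field_simp
        ring
      _ = 4 * e * (D * A ^ (N + 1)) * ((p : ℝ) ^ 2)⁻¹ := by rw [pow_step R A 1]
      _ = _ := by ring
  have hY2s : ((P.biUnion Y2).card : ℝ) ≤ 4 * D * e / M * A ^ (N + 1) := by
    have h1 : ((P.biUnion Y2).card : ℝ) ≤ ∑ p ∈ P, ((Y2 p).card : ℝ) := by
      exact_mod_cast card_biUnion_le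
    refine h1.trans ((sum_le_sum hY2').trans ?_)
    rw [← mul_sum]
    have h2 := sum_inv M ⌊A⌋₊ hM P (filter_subset _ _)
    calc 4 * (D : ℝ) * e * A ^ (N + 1) * ∑ p ∈ P, ((p : ℝ) ^ 2)⁻¹ ≤
          4 * D * e * A ^ (N + 1) * (M : ℝ)⁻¹ := by gcongr
      _ = _ := by ring
  have hY3' : (Y3.card : ℝ) ≤ 2 * e * (2 * D + 1) * A ^ N := by
    have h1 : (Y3.card : ℝ) ≤ (B'.filter fun c' => eval c' R ≠ 0).card *
        (((2 * D + 1 : ℕ) : ℝ) * (e * 2)) := by
      refine fib Y3 _ (fun c' => ((eval c' R).natAbs.primeFactors.filter fun p : ℕ => A ≤ p ∧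
        ¬ p ∣ Q ∧ Gd S p c').biUnion fun p => (TT H Q (b 0)).filter fun x => ∀ G ∈ S,
        (p : ℤ) ∣ eval (Fin.cons x c' : Fin (N + 1) → ℤ) G) _ (fun c hc => ?_) (fun c' hc' => ?_)
      · rw [hY3, mem_filter] at hc
        obtain ⟨hcB, h0, p, hp, hpA, hpQ, hg, hG⟩ := hc
        refine ⟨?_, ?_⟩
        · rw [mem_filter]
          exact ⟨(tail_Bx hcB).1, h0⟩
        · rw [mem_biUnion]
          refine ⟨p, ?_, ?_⟩
          · rw [mem_filter, Nat.mem_primeFactors]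
            refine ⟨⟨hp, ?_, ?_⟩, hpA, hpQ, hg⟩
            · exact Int.natCast_dvd.1 (dvd_of_span hR hG)
            · exact Int.natAbs_ne_zero.2 h0
          · rw [mem_filter, Fin.cons_self_tail]
            exact ⟨(tail_Bx hcB).2, hG⟩
      · rw [mem_filter] at hc'
        set FF := (eval c' R).natAbs.primeFactors.filter fun p : ℕ => A ≤ p ∧
          ¬ p ∣ Q ∧ Gd S p c' with hFF
        have h2 : FF.card ≤ 2 * D + 1 := by
          refine card_large (eval c' R).natAbs (Int.natAbs_ne_zero.2 hc'.2) A hA1 _ ?_ FF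
            (filter_subset _ _) fun p hp => (mem_filter.1 hp).2.1
          have h3 := hK2 H c' fun i => by
            have := hc'.1
            rw [hB', Bx, Fintype.mem_piFinset] at this
            exact (mem_TT.1 (this i)).1
          have h4 : (((eval c' R).natAbs : ℕ) : ℝ) = |((eval c' R : ℤ) : ℝ)| := by
            rw [Nat.cast_natAbs]
            push_cast
            rfl
          have h5 : |((eval c' R : ℤ) : ℝ)| ≤ K * ((H : ℝ) + 1) ^ D := by exact_mod_cast h3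
          rw [h4]
          calc |((eval c' R : ℤ) : ℝ)| ≤ K * ((H : ℝ) + 1) ^ D := h5
            _ ≤ A * (A ^ 2) ^ D := by gcongr
            _ = A ^ (2 * D + 1) := by rw [← pow_mul, pow_succ]; ring
        have h3 : ∀ p ∈ FF, (((TT H Q (b 0)).filter fun x => ∀ G ∈ S,
            (p : ℤ) ∣ eval (Fin.cons x c' : Fin (N + 1) → ℤ) G).card : ℝ) ≤ e * 2 := by
          intro p hp
          rw [hFF, mem_filter] at hp
          obtain ⟨hp1, hpA, hpQ, G, hG, j, hj⟩ := hp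
          have hp2 := Nat.prime_of_mem_primeFactors hp1
          refine (card_X S e he H Q p hQ hp2 hpQ (b 0) c' hG hj).trans ?_
          have := inv_le2 hQ hp2.pos hA hpA
          gcongr
        have h4 : ((FF.biUnion fun p => (TT H Q (b 0)).filter fun x => ∀ G ∈ S,
            (p : ℤ) ∣ eval (Fin.cons x c' : Fin (N + 1) → ℤ) G).card : ℝ) ≤
            ∑ p ∈ FF, (((TT H Q (b 0)).filter fun x => ∀ G ∈ S,
              (p : ℤ) ∣ eval (Fin.cons x c' : Fin (N + 1) → ℤ) G).card : ℝ) := by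
          exact_mod_cast card_biUnion_le
        refine h4.trans ((sum_le_card_nsmul _ _ _ h3).trans ?_)
        rw [nsmul_eq_mul]
        gcongr
    have h2 : ((B'.filter fun c' => eval c' R ≠ 0).card : ℝ) ≤ A ^ N := by
      refine le_trans ?_ (le_of_le_of_eq (card_Bx H Q hQ (Fin.tail b)) (by rw [hA]))
      exact_mod_cast card_filter_le _ _
    calc (Y3.card : ℝ) ≤ _ := h1
      _ ≤ A ^ N * (((2 * D + 1 : ℕ) : ℝ) * (e * 2)) := by gcongr
      _ = _ := by push_cast; ring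
  have hfin : ((ZZ S M Q H b).card : ℝ) ≤ Ya.card + (Y1.card + ((P.biUnion Y2).card + Y3.card)) := by
    have h1 := card_le_card hsub
    have h2 := card_union_le Ya (Y1 ∪ (P.biUnion Y2 ∪ Y3))
    have h3 := card_union_le Y1 (P.biUnion Y2 ∪ Y3)
    have h4 := card_union_le (P.biUnion Y2) Y3
    have : (ZZ S M Q H b).card ≤ Ya.card + (Y1.card + ((P.biUnion Y2).card + Y3.card)) := by omega
    exact_mod_cast this
  linarith

end Pool.Agent.Q261.OD
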