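import Pool.Agent.Q40.OD.Stm2
import Pool.Agent.Q261.OD.EK3b

/-!
# The uniform Ekedahl sieve (OD-23)
-/

set_option autoImplicit false

namespace Pool.Agent.Q261.OD

open Finset MvPolynomial
open Pool.Agent.Q40.OD

theorem exists_K {N : ℕ} (R : MvPolynomial (Fin N) ℤ) (hR0 : R ≠ 0) : ∃ K : ℕ,
    (∀ p : ℕ, p.Prime → K < p → map (Int.castRingHom (ZMod p)) R ≠ 0) ∧
    ∀ (H : ℕ) (c' : Fin N → ℤ), (∀ i, |c' i| ≤ H) →
      |eval c' R| ≤ K * ((H : ℤ) + 1) ^ R.totalDegree := by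
  refine ⟨∑ m ∈ R.support, (coeff m R).natAbs, ?_, ?_⟩
  · intro p hp hK h
    obtain ⟨m, hm⟩ := support_nonempty.2 hR0
    have h1 := congrArg (coeff m) h
    rw [coeff_map, coeff_zero, eq_intCast, ZMod.intCast_zmod_eq_zero_iff_dvd] at h1
    have h2 : (coeff m R).natAbs ≤ ∑ m ∈ R.support, (coeff m R).natAbs :=
      single_le_sum (f := fun m => (coeff m R).natAbs) (fun _ _ => Nat.zero_le _) hm
    have h3 := Nat.le_of_dvd (Int.natAbs_pos.2 (mem_support_iff.1 hm)) (Int.natCast_dvd.1 h1)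
    omega
  · intro H c' hc
    rw [eval_eq]
    push_cast
    rw [sum_mul]
    refine (abs_sum_le_sum_abs _ _).trans (sum_le_sum fun m hm => ?_)
    rw [abs_mul, abs_prod]
    have h1 : ∏ i ∈ m.support, |c' i ^ m i| ≤ ((H : ℤ) + 1) ^ R.totalDegree := by
      have h2 : ∏ i ∈ m.support, |c' i ^ m i| ≤ ∏ i ∈ m.support, ((H : ℤ) + 1) ^ m i := by
        refine prod_le_prod (fun _ _ => abs_nonneg _) fun i _ => ?_
        rw [abs_pow]
        exact pow_le_pow_left₀ (abs_nonneg _) (by linarith [hc i]) _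
      refine h2.trans ?_
      rw [prod_pow_eq_pow_sum]
      refine pow_le_pow_right₀ (by linarith [Int.natCast_nonneg H]) ?_
      exact le_totalDegree hm
    exact mul_le_mul_of_nonneg_left h1 (abs_nonneg _)

theorem fse_map {N : ℕ} (G : MvPolynomial (Fin (N + 1)) ℤ) :
    finSuccEquiv ℚ N (map (Int.castRingHom ℚ) G) =
      Polynomial.map (map (Int.castRingHom ℚ)) (finSuccEquiv ℤ N G) := by
  induction G using MvPolynomial.induction_on with
  | C a =>
    rw [map_C, finSuccEquiv_apply, finSuccEquiv_apply, eval₂Hom_C, eval₂Hom_C]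
    simp
  | add p q hp hq => rw [map_add, map_add, map_add, hp, hq, Polynomial.map_add]
  | mul_X p i hp =>
    rw [map_mul, map_mul, map_mul, hp, Polynomial.map_mul, map_X]
    congr 1
    refine Fin.cases ?_ (fun j => ?_) i
    · rw [finSuccEquiv_X_zero, finSuccEquiv_X_zero, Polynomial.map_X]
    · rw [finSuccEquiv_X_succ, finSuccEquiv_X_succ, Polynomial.map_C, map_X]

theorem cop_coeff {N : ℕ} (S : Finset (MvPolynomial (Fin (N + 1)) ℤ))
    (hS : Cop (S : Set (MvPolynomial (Fin (N + 1)) ℤ))) (S' : Finset (MvPolynomial (Fin N) ℤ))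
    (hS' : ∀ G ∈ S, ∀ j, (finSuccEquiv ℤ N G).coeff j ∈ S') :
    Cop (S' : Set (MvPolynomial (Fin N) ℤ)) := by
  intro P hP
  have h1 : IsUnit (rename Fin.succ P : MvPolynomial (Fin (N + 1)) ℚ) := by
    refine hS _ fun G hG => ?_
    have h2 := fse_map G
    have h3 : Polynomial.C P ∣ finSuccEquiv ℚ N (map (Int.castRingHom ℚ) G) := by
      rw [Polynomial.C_dvd_iff_dvd_coeff, h2]
      intro j
      rw [Polynomial.coeff_map]
      exact hP _ (hS' G hG j)
    rw [← fse_rename] at h3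
    have h4 := map_dvd (finSuccEquiv ℚ N).symm h3
    rwa [AlgEquiv.symm_apply_apply, AlgEquiv.symm_apply_apply] at h4
  rw [isUnit_iff_eq_C_of_isReduced] at h1 ⊢
  obtain ⟨r, hr, h5⟩ := h1
  refine ⟨r, hr, rename_injective _ (Fin.succ_injective N) ?_⟩
  rw [h5, rename_C]

open Classical in
theorem ek3_fin (N : ℕ) : ∀ S : Finset (MvPolynomial (Fin N) ℤ),
    Cop (S : Set (MvPolynomial (Fin N) ℤ)) →
    ∃ C : ℕ, 0 < C ∧ ∀ M Q : ℕ, C ≤ M → 1 ≤ Q → ∃ H₀ : ℕ, ∀ H : ℕ, H₀ ≤ H → ∀ b : Fin N → ℤ,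
      ((ZZ S M Q H b).card : ℝ) ≤ ((C : ℝ) / M) * (2 * H / Q + 1) ^ N := by
  induction N with
  | zero =>
    intro S hS
    have h0 : ∃ G ∈ S, G ≠ 0 := by
      by_contra hcon
      push Not at hcon
      have h1 : IsUnit (0 : MvPolynomial (Fin 0) ℚ) := hS 0 fun G hG => by
        rw [hcon G hG, map_zero]
      exact not_isUnit_zero h1
    obtain ⟨G, hG, hG0⟩ := h0
    refine ⟨(coeff 0 G).natAbs + 1, by omega, fun M Q hM hQ => ⟨0, fun H _ b => ?_⟩⟩
    have h1 : ZZ S M Q H b = ∅ := by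
      unfold ZZ
      rw [filter_eq_empty_iff]
      rintro c - ⟨p, hp, hMp, -, hdvd⟩
      have h2 := hdvd G hG
      rw [eq_C_of_isEmpty G, eval_C] at h2
      have h3 : coeff 0 G ≠ 0 := by
        intro h
        apply hG0
        rw [eq_C_of_isEmpty G, h, C_0]
      have h4 := Nat.le_of_dvd (Int.natAbs_pos.2 h3) (Int.natCast_dvd.1 h2)
      omega
    rw [h1, card_empty, Nat.cast_zero]
    positivity
  | succ N ih =>
    intro S hS
    set e := S.sup fun G => (finSuccEquiv ℤ N G).natDegree with he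
    have he' : ∀ G ∈ S, (finSuccEquiv ℤ N G).natDegree ≤ e := fun G hG =>
      le_sup (f := fun G => (finSuccEquiv ℤ N G).natDegree) hG
    set S' : Finset (MvPolynomial (Fin N) ℤ) := S.biUnion fun G =>
      (range (e + 2)).image fun j => (finSuccEquiv ℤ N G).coeff j with hS'
    have hS'1 : ∀ G ∈ S, ∀ j, (finSuccEquiv ℤ N G).coeff j ∈ S' := by
      intro G hG j
      rw [hS', mem_biUnion]
      refine ⟨G, hG, ?_⟩
      rw [mem_image]
      rcases le_or_gt j (e + 1) with h | h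
      · exact ⟨j, mem_range.2 (by omega), rfl⟩
      · refine ⟨e + 1, mem_range.2 (by omega), ?_⟩
        have h1 := he' G hG
        rw [Polynomial.coeff_eq_zero_of_natDegree_lt (by omega),
          Polynomial.coeff_eq_zero_of_natDegree_lt (by omega)]
    have hS'2 : ∀ g ∈ S', ∃ G ∈ S, ∃ j, g = (finSuccEquiv ℤ N G).coeff j := by
      intro g hg
      rw [hS', mem_biUnion] at hg
      obtain ⟨G, hG, h1⟩ := hg
      rw [mem_image] at h1
      obtain ⟨j, _, h2⟩ := h1
      exact ⟨G, hG, j, h2.symm⟩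
    obtain ⟨C', hC', hsieve⟩ := ih S' (cop_coeff S hS S' hS'1)
    obtain ⟨R, hR0, hR⟩ := ek2 S fun P hP => hS P fun G hG => hP G hG
    obtain ⟨K, hK1, hK2⟩ := exists_K R hR0
    set D := R.totalDegree with hD
    refine ⟨C' + 4 * D * e + 1 + K, by omega, fun M Q hM hQ => ?_⟩
    obtain ⟨H₁, hH₁⟩ := hsieve M Q (by omega) hQ
    refine ⟨H₁ + K * Q + Q * Q + M * Q * (D + 2 * e * (2 * D + 1)) + 1, fun H hH b => ?_⟩
    have hM0 : 0 < M := by omega
    have hQ0 : 0 < Q := by omega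
    have hQr : (0 : ℝ) < Q := by exact_mod_cast hQ0
    have hMr : (0 : ℝ) < M := by exact_mod_cast hM0
    set A : ℝ := 2 * H / Q + 1 with hA
    have hH0 : (0 : ℝ) < H := by
      have : 0 < H := by omega
      exact_mod_cast this
    have hdiv : 0 < (2 * H / Q : ℝ) := by positivity
    have hA1 : 1 < A := by linarith
    have hAK : (K : ℝ) ≤ A := by
      have h1 : K * Q ≤ H := by omega
      have h2 : (K : ℝ) * Q ≤ H := by exact_mod_cast h1
      have h3 : (K : ℝ) ≤ 2 * H / Q := by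
        rw [le_div_iff₀ hQr]
        linarith
      linarith
    have hAH : (H : ℝ) + 1 ≤ A ^ 2 := by
      have h1 : Q * Q ≤ H := by omega
      have h2 : (Q : ℝ) * Q ≤ H := by exact_mod_cast h1
      have h3 : (H : ℝ) ≤ (2 * H / Q : ℝ) ^ 2 := by
        rw [div_pow, le_div_iff₀ (by positivity)]
        nlinarith
      have h4 : A ^ 2 = (2 * H / Q : ℝ) ^ 2 + 2 * (2 * H / Q : ℝ) + 1 := by rw [hA]; ring
      linarith
    have hAM : (M : ℝ) * (D + 2 * e * (2 * D + 1)) ≤ A := by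
      have h1 : M * Q * (D + 2 * e * (2 * D + 1)) ≤ H := by omega
      have h2 : (M : ℝ) * Q * (D + 2 * e * (2 * D + 1)) ≤ H := by exact_mod_cast h1
      have h3 : (M : ℝ) * (D + 2 * e * (2 * D + 1)) ≤ 2 * H / Q := by
        rw [le_div_iff₀ hQr]
        linarith
      linarith
    have hA0 : 0 < A := by linarith
    have h1 := step S S' e he' hS'2 R hR hR0 K hK1 hK2 M Q H hM0 (by omega) hQ0 A hA hAK hAH hA1 b
    have h2 := hH₁ H (by omega) (Fin.tail b)
    rw [← hA] at h2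
    have h3 : ((D : ℝ) + 2 * e * (2 * D + 1)) * A ^ N ≤ 1 / M * A ^ (N + 1) := by
      rw [pow_succ]
      have h4 : ((D : ℝ) + 2 * e * (2 * D + 1)) ≤ 1 / M * A := by
        rw [one_div, le_inv_mul_iff₀ hMr]
        exact hAM
      calc ((D : ℝ) + 2 * e * (2 * D + 1)) * A ^ N ≤ 1 / M * A * A ^ N := by gcongr
        _ = _ := by ring
    have h4 : (0 : ℝ) ≤ (K : ℝ) / M * A ^ (N + 1) := by positivity
    calc ((ZZ S M Q H b).card : ℝ) ≤ (ZZ S' M Q H (Fin.tail b)).card * A +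
          D * A ^ N + 4 * D * e / M * A ^ (N + 1) + 2 * e * (2 * D + 1) * A ^ N := h1
      _ ≤ (C' : ℝ) / M * A ^ N * A +
          D * A ^ N + 4 * D * e / M * A ^ (N + 1) + 2 * e * (2 * D + 1) * A ^ N := by gcongr
      _ = (C' : ℝ) / M * A ^ (N + 1) + 4 * D * e / M * A ^ (N + 1) +
          ((D : ℝ) + 2 * e * (2 * D + 1)) * A ^ N := by ring
      _ ≤ (C' : ℝ) / M * A ^ (N + 1) + 4 * D * e / M * A ^ (N + 1) +
          1 / M * A ^ (N + 1) + (K : ℝ) / M * A ^ (N + 1) := by linarith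
      _ = _ := by
        push_cast
        ring

open Classical in
/-- OD-23 -/
theorem ek3_all : S_EK3 := by
  intro N S hS
  obtain ⟨C, hC, h⟩ := ek3_fin N S hS
  refine ⟨C, hC, fun M Q hM hQ => ?_⟩
  obtain ⟨H₀, h0⟩ := h M Q hM hQ
  refine ⟨H₀, fun H hH b => ?_⟩
  refine le_trans (le_of_eq ?_) (h0 H hH b)
  congr 1
  refine Nat.subtype_card _ fun c => ?_
  unfold ZZ
  rw [mem_filter, Bx, Fintype.mem_piFinset]
  simp only [mem_TT, forall_and]
  tauto

theorem s_ek3 (_ : S_EK1) (_ : S_EK2) : S_EK3 := ek3_all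

end Pool.Agent.Q261.OD
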