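import Pool.Agent.Q261.OD.EK1a
import Pool.Agent.Q261.OD.EK2a

/-!
# Tools for the uniform Ekedahl sieve
-/

set_option autoImplicit false

namespace Pool.Agent.Q261.OD

open Finset MvPolynomial

/-- integers of absolute value at most `H` congruent to `β` modulo `Q` -/
@[irreducible] noncomputable def TT (H Q : ℕ) (β : ℤ) : Finset ℤ := (Icc (-(H : ℤ)) H).filter fun t => (Q : ℤ) ∣ t - β

theorem mem_TT {H Q : ℕ} {β t : ℤ} : t ∈ TT H Q β ↔ |t| ≤ H ∧ (Q : ℤ) ∣ t - β := by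
  unfold TT
  rw [mem_filter, mem_Icc, abs_le]

theorem card_ap (H m : ℕ) (hm : 0 < m) (v : ℤ) (X : Finset ℤ)
    (hX : ∀ t ∈ X, |t| ≤ H ∧ (m : ℤ) ∣ t - v) : (X.card : ℝ) ≤ 2 * H / m + 1 := by
  have hm' : (0 : ℤ) < m := by exact_mod_cast hm
  set a : ℤ := -(((H : ℤ) + v) / m) with ha
  set b : ℤ := ((H : ℤ) - v) / m with hb
  have h1 : X.card ≤ (Icc a b).card := by
    refine card_le_card_of_injOn (fun t => (t - v) / m) ?_ ?_
    · intro t ht
      obtain ⟨h2, k, hk⟩ := hX t ht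
      rw [abs_le] at h2
      have h3 : (t - v) / m = k := by rw [hk, Int.mul_ediv_cancel_left _ hm'.ne']
      rw [mem_coe, mem_Icc]
      change a ≤ (t - v) / m ∧ (t - v) / m ≤ b
      rw [h3, ha, hb]
      constructor
      · have : -k ≤ ((H : ℤ) + v) / m := by
          rw [Int.le_ediv_iff_mul_le hm']
          nlinarith [h2.1]
        linarith
      · rw [Int.le_ediv_iff_mul_le hm']
        nlinarith [h2.2]
    · intro t ht s hs hts
      obtain ⟨_, k, hk⟩ := hX t ht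
      obtain ⟨_, l, hl⟩ := hX s hs
      change (t - v) / (m : ℤ) = (s - v) / m at hts
      rw [hk, hl, Int.mul_ediv_cancel_left _ hm'.ne', Int.mul_ediv_cancel_left _ hm'.ne'] at hts
      subst hts
      linarith
  rw [Int.card_Icc] at h1
  have h2 : (b + 1 - a) * m ≤ 2 * H + m := by
    have e1 := Int.ediv_mul_le ((H : ℤ) + v) hm'.ne'
    have e2 := Int.ediv_mul_le ((H : ℤ) - v) hm'.ne'
    have e3 : (b + 1 - a) * m = ((H : ℤ) - v) / m * m + ((H : ℤ) + v) / m * m + m := by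
      rw [ha, hb]; ring
    rw [e3]
    linarith
  have h3 : (X.card : ℤ) * m ≤ 2 * H + m := by
    rcases le_or_gt (b + 1 - a) 0 with h | h
    · have : X.card = 0 := by omega
      rw [this, Nat.cast_zero, zero_mul]
      have : (0 : ℤ) ≤ H := Int.natCast_nonneg H
      linarith
    · have : (X.card : ℤ) ≤ b + 1 - a := by omega
      nlinarith
  have h4 : (X.card : ℝ) * m ≤ 2 * H + m := by exact_mod_cast h3
  have h5 : (0 : ℝ) < m := by exact_mod_cast hm
  rw [← mul_le_mul_iff_left₀ h5]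
  calc (X.card : ℝ) * m ≤ 2 * H + m := h4
    _ = (2 * H / m + 1) * m := by field_simp

theorem card_TT (H Q : ℕ) (hQ : 0 < Q) (β : ℤ) : ((TT H Q β).card : ℝ) ≤ 2 * H / Q + 1 :=
  card_ap H Q hQ β _ fun _ ht => mem_TT.1 ht

theorem card_res (H Q p : ℕ) (hQ : 0 < Q) (hp : p.Prime) (hpQ : ¬ p ∣ Q) (β : ℤ) (r : ZMod p) :
    (((TT H Q β).filter fun t : ℤ => (t : ZMod p) = r).card : ℝ) ≤ 2 * H / (p * Q) + 1 := by
  set X := (TT H Q β).filter fun t : ℤ => (t : ZMod p) = r with hX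
  rcases X.eq_empty_or_nonempty with h | ⟨t0, ht0⟩
  · rw [h, card_empty, Nat.cast_zero]
    positivity
  · have h1 := card_ap H (p * Q) (Nat.mul_pos hp.pos hQ) t0 X ?_
    · push_cast at h1
      exact h1
    · intro t ht
      rw [hX, mem_filter, mem_TT] at ht ht0
      refine ⟨ht.1.1, ?_⟩
      have h2 : (Q : ℤ) ∣ t - t0 := by
        have := dvd_sub ht.1.2 ht0.1.2
        rwa [sub_sub_sub_cancel_right] at this
      have h3 : (p : ℤ) ∣ t - t0 := by
        rw [← ZMod.intCast_zmod_eq_zero_iff_dvd]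
        push_cast
        rw [ht.2, ht0.2, sub_self]
      push_cast
      refine IsCoprime.mul_dvd ?_ h3 h2
      rw [Nat.isCoprime_iff_coprime]
      exact (Nat.Prime.coprime_iff_not_dvd hp).2 hpQ

theorem eval_fse {N : ℕ} (c : Fin (N + 1) → ℤ) (G : MvPolynomial (Fin (N + 1)) ℤ) :
    eval c G = Polynomial.eval (c 0) (Polynomial.map (eval (Fin.tail c)) (finSuccEquiv ℤ N G)) := by
  rw [← eval_eq_eval_mv_eval', Fin.cons_self_tail]

theorem dvd_of_span {N : ℕ} {S : Finset (MvPolynomial (Fin (N + 1)) ℤ)}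
    {R : MvPolynomial (Fin N) ℤ}
    (hR : rename Fin.succ R ∈ Ideal.span (S : Set (MvPolynomial (Fin (N + 1)) ℤ)))
    {c : Fin (N + 1) → ℤ} {p : ℕ} (h : ∀ G ∈ S, (p : ℤ) ∣ eval c G) :
    (p : ℤ) ∣ eval (Fin.tail c) R := by
  have h1 : Ideal.span (S : Set (MvPolynomial (Fin (N + 1)) ℤ)) ≤
      Ideal.comap (eval c) (Ideal.span {(p : ℤ)}) := by
    rw [Ideal.span_le]
    intro G hG
    exact Ideal.mem_span_singleton.2 (h G hG)
  have h2 := h1 hR
  rw [Ideal.mem_comap, Ideal.mem_span_singleton, eval_rename] at h2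
  exact h2

theorem fib {N : ℕ} (Y : Finset (Fin (N + 1) → ℤ)) (W : Finset (Fin N → ℤ))
    (X : (Fin N → ℤ) → Finset ℤ) (F : ℝ)
    (h1 : ∀ c ∈ Y, Fin.tail c ∈ W ∧ c 0 ∈ X (Fin.tail c))
    (hF : ∀ c' ∈ W, ((X c').card : ℝ) ≤ F) : (Y.card : ℝ) ≤ W.card * F := by
  have h2 : Y.card ≤ (W.sigma X).card := by
    refine card_le_card_of_injOn (fun c => (⟨Fin.tail c, c 0⟩ : Σ _ : Fin N → ℤ, ℤ)) ?_ ?_
    · intro c hc
      rw [mem_coe, mem_sigma]
      exact h1 c hc
    · intro c _ d _ hcd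
      simp only [Sigma.mk.injEq, heq_eq_eq] at hcd
      rw [← Fin.cons_self_tail c, ← Fin.cons_self_tail d, hcd.1, hcd.2]
  rw [card_sigma] at h2
  calc (Y.card : ℝ) ≤ ((∑ a ∈ W, (X a).card : ℕ) : ℝ) := by exact_mod_cast h2
    _ = ∑ a ∈ W, ((X a).card : ℝ) := by push_cast; rfl
    _ ≤ W.card • F := sum_le_card_nsmul _ _ _ hF
    _ = W.card * F := by rw [nsmul_eq_mul]

/-- the fibres -/
theorem card_X {N : ℕ} (S : Finset (MvPolynomial (Fin (N + 1)) ℤ)) (e : ℕ)
    (he : ∀ G ∈ S, (finSuccEquiv ℤ N G).natDegree ≤ e) (H Q p : ℕ) (hQ : 0 < Q) (hp : p.Prime)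
    (hpQ : ¬ p ∣ Q) (β : ℤ) (c' : Fin N → ℤ) {G : MvPolynomial (Fin (N + 1)) ℤ} (hG : G ∈ S)
    {j : ℕ} (hj : ¬ (p : ℤ) ∣ eval c' ((finSuccEquiv ℤ N G).coeff j)) :
    (((TT H Q β).filter fun x => ∀ G ∈ S, (p : ℤ) ∣ eval (Fin.cons x c' : Fin (N + 1) → ℤ) G).card
      : ℝ) ≤ e * (2 * H / (p * Q) + 1) := by
  have : Fact p.Prime := ⟨hp⟩
  set q : Polynomial (ZMod p) := Polynomial.map ((Int.castRingHom (ZMod p)).comp (eval c'))
    (finSuccEquiv ℤ N G) with hq
  have hq0 : q ≠ 0 := by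
    intro h
    apply hj
    have h1 := congrArg (fun f => Polynomial.coeff f j) h
    simp only [hq, Polynomial.coeff_map, Polynomial.coeff_zero, RingHom.comp_apply] at h1
    rw [← ZMod.intCast_zmod_eq_zero_iff_dvd]
    exact h1
  have hqe : q.natDegree ≤ e := (Polynomial.natDegree_map_le).trans (he G hG)
  have h2 := roots_card q hq0 hqe (TT H Q β) (B := 2 * H / (p * Q) + 1) (by positivity)
    (fun r => card_res H Q p hQ hp hpQ β r)
  refine le_trans ?_ h2
  have h3 : ((TT H Q β).filter fun x => ∀ G ∈ S, (p : ℤ) ∣ eval (Fin.cons x c' : Fin (N + 1) → ℤ) G)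
      ⊆ ((TT H Q β).filter fun x : ℤ => q.eval (x : ZMod p) = 0) := by
    intro x hx
    rw [mem_filter] at hx ⊢
    refine ⟨hx.1, ?_⟩
    have h4 := hx.2 G hG
    rw [eval_fse, Fin.cons_zero, Fin.tail_cons, ← ZMod.intCast_zmod_eq_zero_iff_dvd] at h4
    rw [hq, ← Polynomial.map_map]
    have h5 := Polynomial.eval_map_apply (f := Int.castRingHom (ZMod p))
      (p := Polynomial.map (eval c') (finSuccEquiv ℤ N G)) x
    rw [eq_intCast] at h5
    rw [h5, eq_intCast]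
    exact h4
  exact_mod_cast card_le_card h3

/-- the zeros of `R` modulo `p` -/
theorem card_R {N : ℕ} (R : MvPolynomial (Fin N) ℤ) (H Q p : ℕ) (hQ : 0 < Q) (hp : p.Prime)
    (hpQ : ¬ p ∣ Q) (hR : map (Int.castRingHom (ZMod p)) R ≠ 0) (b : Fin N → ℤ) :
    (((Fintype.piFinset fun i => TT H Q (b i)).filter fun c' => (p : ℤ) ∣ eval c' R).card : ℝ) ≤
      R.totalDegree * (2 * H / (p * Q) + 1) * (2 * H / Q + 1) ^ (N - 1) := by
  have : Fact p.Prime := ⟨hp⟩
  have h1 := ek1_fin (2 * H / Q + 1 : ℝ) (2 * H / (p * Q) + 1 : ℝ) (by positivity) N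
    (map (Int.castRingHom (ZMod p)) R) hR (fun i => TT H Q (b i))
    (fun i => card_TT H Q hQ (b i)) (fun i r => card_res H Q p hQ hp hpQ (b i) r)
  have h2 : (map (Int.castRingHom (ZMod p)) R).totalDegree ≤ R.totalDegree := by
    unfold totalDegree
    exact Finset.sup_mono (support_map_subset _ _)
  have h3 : ∀ c' : Fin N → ℤ, eval (fun i => (c' i : ZMod p)) (map (Int.castRingHom (ZMod p)) R) =
      ((eval c' R : ℤ) : ZMod p) := by
    intro c'
    rw [eval_map, ← eq_intCast (Int.castRingHom (ZMod p)) (eval c' R), eval₂_comp]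
    rfl
  have h4 : ((Fintype.piFinset fun i => TT H Q (b i)).filter fun c' => (p : ℤ) ∣ eval c' R) =
      (Fintype.piFinset fun i => TT H Q (b i)).filter fun c' =>
        eval (fun i => (c' i : ZMod p)) (map (Int.castRingHom (ZMod p)) R) = 0 := by
    refine filter_congr fun c' _ => ?_
    rw [h3, ZMod.intCast_zmod_eq_zero_iff_dvd]
  rw [h4]
  refine h1.trans ?_
  gcongr

end Pool.Agent.Q261.OD
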